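import Pool.Agent.SNum.Final

/-!
# An S-number whose type depends on the definition

Full answer to Q1 of MP_7b597b_nt.
-/

open Polynomial Filter Topology

namespace Pool.Agent.Results.MP_7b597b_nt.LimsupBelowSup

/-- The height of an integer polynomial: the maximum of the absolute values of its
coefficients. -/
noncomputable def height (P : ℤ[X]) : ℕ := P.support.sup fun i => (P.coeff i).natAbs

/-- Mahler's exponent `w_n(ξ)`: the supremum, in `[-∞, ∞]`, of the real numbers `w` such that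
`0 < |P(ξ)| ≤ H(P)^(-w)` for infinitely many integer polynomials `P` of degree at most `n`. -/
noncomputable def mahlerExp (n : ℕ) (ξ : ℝ) : EReal :=
  sSup {e : EReal | ∃ w : ℝ, e = (w : EReal) ∧ Set.Infinite {P : ℤ[X] | P.natDegree ≤ n ∧
    0 < |aeval ξ P| ∧ |aeval ξ P| ≤ (height P : ℝ) ^ (-w)}}

/-- `w(ξ)`, the limsup of `w_n(ξ)/n`. -/
noncomputable def mahlerW (ξ : ℝ) : EReal :=
  limsup (fun n : ℕ => mahlerExp n ξ / (n : EReal)) atTop

/-- `ξ` is an S-number: `0 < w(ξ) < ∞`. -/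
def IsSNumber (ξ : ℝ) : Prop := 0 < mahlerW ξ ∧ mahlerW ξ < ⊤

/-- The limsup of `(w_n(ξ) + 1)/(n + 1)`. -/
noncomputable def limsupType (ξ : ℝ) : EReal :=
  limsup (fun n : ℕ => (mahlerExp n ξ + 1) / ((n : EReal) + 1)) atTop

/-- The supremum of `(w_n(ξ) + 1)/(n + 1)` over `n ≥ 1`. -/
noncomputable def supType (ξ : ℝ) : EReal :=
  ⨆ n : ℕ, ⨆ _ : 1 ≤ n, (mahlerExp n ξ + 1) / ((n : EReal) + 1)

/-- There is a real S-number `ξ` with `w_1(ξ) ≥ 998` and `w_n(ξ) ≤ 200 n + 40000` for all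
`n ≥ 1`; hence `limsup (w_n(ξ) + 1)/(n + 1) ≤ 200 < 499 ≤ sup (w_n(ξ) + 1)/(n + 1)`. -/
theorem result : ∃ ξ : ℝ, IsSNumber ξ ∧ limsupType ξ ≤ 200 ∧ 499 ≤ supType ξ ∧
    998 ≤ mahlerExp 1 ξ ∧ ∀ n : ℕ, 1 ≤ n → mahlerExp n ξ ≤ ((200 * n + 40000 : ℕ) : EReal) := by
  obtain ⟨ξ, B, hξ0, hξ1, hB, hirr, hrat⟩ := Pool.Agent.SNum.exists_xi
  have hne : ∀ P : ℤ[X], P ≠ 0 → aeval ξ P ≠ 0 := by
    intro P hP h0
    obtain ⟨q, hq1, hq2, hq3⟩ := Pool.Agent.TNum.exists_irreducible_factor_root hP h0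
    exact hirr q hq1 hq2 hq3
  have hht : ∀ P : ℤ[X], Pool.Agent.TNum.ht P = height P := fun P => rfl
  have hup : ∀ n : ℕ, mahlerExp n ξ ≤ ((200 * n + 40000 : ℕ) : EReal) := by
    intro n
    obtain ⟨κ, hκ, h⟩ := Pool.Agent.SNum.lower_all hne hB n
    apply sSup_le
    rintro e ⟨w, rfl, hw⟩
    by_contra hcon
    push Not at hcon
    have hlt : ((Pool.Agent.SNum.EE n : ℕ) : ℝ) < w := by
      have h1 : (((200 * n + 40000 : ℕ) : ℝ) : EReal) < (w : EReal) := by
        rwa [EReal.coe_natCast]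
      exact EReal.coe_lt_coe_iff.1 h1
    apply hw
    refine (Pool.Agent.SNum.finite_of_lower n (Pool.Agent.SNum.EE n) hκ h w hlt).subset ?_
    rintro P ⟨h1, h2, h3⟩
    refine ⟨?_, h1, h3⟩
    rintro rfl
    simp at h2
  have hlow : ∀ n : ℕ, 1 ≤ n → (((n : ℝ) - 1 / 2 : ℝ) : EReal) ≤ mahlerExp n ξ := by
    intro n hn
    have hn1 : (1 : ℝ) ≤ n := by exact_mod_cast hn
    apply le_sSup
    refine ⟨(n : ℝ) - 1 / 2, rfl, ?_⟩
    have h1 := Pool.Agent.SNum.infinite_dirichlet hξ0 hξ1 hne hn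
      (w := (n : ℝ) - 1 / 2) (by linarith) (by linarith)
    refine h1.mono ?_
    rintro P ⟨_, h2, h3, h4⟩
    exact ⟨h2, h3, h4⟩
  have h998 : (998 : EReal) ≤ mahlerExp 1 ξ := by
    apply le_sSup
    refine ⟨998, by norm_cast, ?_⟩
    have h1 := Pool.Agent.SNum.infinite_rational hne hrat
    refine h1.mono ?_
    rintro P ⟨_, h2, h3, h4⟩
    exact ⟨h2, h3, h4⟩
  -- real values
  have hreal : ∀ n : ℕ, 1 ≤ n → ∃ x : ℝ, mahlerExp n ξ = (x : EReal) ∧ (n : ℝ) - 1 / 2 ≤ x ∧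
      x ≤ 200 * n + 40000 := by
    intro n hn
    have h1 := hlow n hn
    have h2 := hup n
    have ht : mahlerExp n ξ ≠ ⊤ := by
      intro h
      rw [h, top_le_iff, ← EReal.coe_natCast] at h2
      exact EReal.coe_ne_top _ h2
    have hbot : mahlerExp n ξ ≠ ⊥ := by
      intro h
      rw [h, le_bot_iff] at h1
      exact EReal.coe_ne_bot _ h1
    refine ⟨(mahlerExp n ξ).toReal, (EReal.coe_toReal ht hbot).symm, ?_, ?_⟩
    · rw [← EReal.coe_toReal ht hbot, EReal.coe_le_coe_iff] at h1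
      exact h1
    · rw [← EReal.coe_toReal ht hbot, ← EReal.coe_natCast, EReal.coe_le_coe_iff] at h2
      push_cast at h2
      exact h2
  have hcd : ∀ (n : ℕ) (x : ℝ), ((x : EReal) + 1) / ((n : EReal) + 1) =
      (((x + 1) / (n + 1) : ℝ) : EReal) := by
    intro n x
    rw [← EReal.coe_natCast, ← EReal.coe_one, ← EReal.coe_add, ← EReal.coe_add, ← EReal.coe_div]
  refine ⟨ξ, ⟨?_, ?_⟩, ?_, ?_, h998, fun n _ => hup n⟩
  · -- `0 < w(ξ)`
    have h1 : ((1 / 2 : ℝ) : EReal) ≤ mahlerW ξ := by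
      apply le_limsup_of_frequently_le
      · apply Eventually.frequently
        filter_upwards [eventually_ge_atTop 1] with n hn
        have hn1 : (1 : ℝ) ≤ n := by exact_mod_cast hn
        obtain ⟨x, hx, h2, h3⟩ := hreal n hn
        rw [hx, ← EReal.coe_natCast, ← EReal.coe_div, EReal.coe_le_coe_iff,
          le_div_iff₀ (by linarith)]
        linarith
      · isBoundedDefault
    refine lt_of_lt_of_le ?_ h1
    exact EReal.coe_pos.2 (by norm_num)
  · -- `w(ξ) < ∞`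
    have h1 : mahlerW ξ ≤ ((40200 : ℝ) : EReal) := by
      apply limsup_le_of_le
      · isBoundedDefault
      · filter_upwards [eventually_ge_atTop 1] with n hn
        have hn1 : (1 : ℝ) ≤ n := by exact_mod_cast hn
        obtain ⟨x, hx, h2, h3⟩ := hreal n hn
        rw [hx, ← EReal.coe_natCast, ← EReal.coe_div, EReal.coe_le_coe_iff,
          div_le_iff₀ (by linarith)]
        linarith
    exact lt_of_le_of_lt h1 (EReal.coe_lt_top _)
  · -- the limsup
    have h1 : Tendsto (fun n : ℕ => (200 * (n : ℝ) + 40001) / (n + 1)) atTop (𝓝 200) := by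
      have h2 : Tendsto (fun n : ℕ => 39801 / ((n : ℝ) + 1)) atTop (𝓝 0) := by
        have h3 : Tendsto (fun n : ℕ => (n : ℝ) + 1) atTop atTop :=
          tendsto_atTop_add_const_right _ _ tendsto_natCast_atTop_atTop
        exact h3.const_div_atTop _
      have h4 := h2.const_add (200 : ℝ)
      rw [add_zero] at h4
      refine h4.congr fun n => ?_
      have : (n : ℝ) + 1 ≠ 0 := by positivity
      field_simp
      ring
    have h2 : Tendsto (fun n : ℕ => (((200 * (n : ℝ) + 40001) / (n + 1) : ℝ) : EReal)) atTop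
        (𝓝 ((200 : ℝ) : EReal)) := (continuous_coe_real_ereal.tendsto 200).comp h1
    have h3 : limsupType ξ ≤ ((200 : ℝ) : EReal) := by
      rw [← h2.limsup_eq]
      apply limsup_le_limsup
      · filter_upwards [eventually_ge_atTop 1] with n hn
        have hn1 : (1 : ℝ) ≤ n := by exact_mod_cast hn
        obtain ⟨x, hx, h4, h5⟩ := hreal n hn
        rw [hx, hcd, EReal.coe_le_coe_iff]
        exact div_le_div_of_nonneg_right (by linarith) (by positivity)
      · isBoundedDefault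
      · isBoundedDefault
    exact h3
  · -- the supremum
    obtain ⟨x, hx, h4, h5⟩ := hreal 1 le_rfl
    have h6 : (998 : ℝ) ≤ x := by
      have h7 : ((998 : ℝ) : EReal) ≤ (x : EReal) := by
        rw [← hx]
        exact h998
      exact EReal.coe_le_coe_iff.1 h7
    refine le_trans ?_ (le_iSup₂ (f := fun (n : ℕ) (_ : 1 ≤ n) =>
      (mahlerExp n ξ + 1) / ((n : EReal) + 1)) 1 le_rfl)
    rw [hx, hcd]
    have h8 : ((499 : ℝ) : EReal) ≤ (((x + 1) / ((1 : ℕ) + 1) : ℝ) : EReal) := by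
      rw [EReal.coe_le_coe_iff, le_div_iff₀ (by norm_num)]
      push_cast
      linarith
    exact h8

end Pool.Agent.Results.MP_7b597b_nt.LimsupBelowSup
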